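import Pool.Agent.H654R5.PT.Stm

namespace Pool.Agent.H654R5.PT.DED

open Pool.Agent.H654R5.PT

theorem filter_card (hS : S_STR) (A : ℕ) (p : List Bool → Bool) :
    ((allStr A).filter p).length = ((strs A).filter (fun z => p z = true)).card := by
  unfold strs
  rw [← List.toFinset_card_of_nodup ((hS.2.1 A).filter _)]
  congr 1
  ext z
  simp

open Classical in
theorem DED_proof (hS : S_STR) : S_DED := by
  intro a hF n N hN
  set A := aa (gN N) with hA
  set M := N - A with hM
  set D := (strs M).filter (fun c => deadB a n (N, c) = true) with hD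
  have hMA : M + A = N := by omega
  set P : List Bool → Finset (List Bool) := fun c =>
    (strs A).filter (fun z => decide (c ++ z ∈ spoiled a n) = true) with hP
  have hc : ∀ c ∈ D, 2 ^ A < 8 * (P c).card := by
    intro c hc
    rw [hD, Finset.mem_filter] at hc
    have h := hc.2
    unfold deadB at h
    rw [decide_eq_true_iff] at h
    rw [filter_card hS] at h
    exact h
  have hlen : ∀ c ∈ D, c.length = M := by
    intro c hc
    rw [hD, Finset.mem_filter] at hc
    exact (hS.2.2.2.1 M c).mp hc.1
  set F : Finset (List Bool) := (D.sigma P).image (fun p => p.1 ++ p.2) with hFd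
  have hinj : Set.InjOn (fun p : (_ : List Bool) × List Bool => p.1 ++ p.2) (D.sigma P) := by
    rintro ⟨c, z⟩ hp ⟨c', z'⟩ hp' h
    rw [Finset.mem_coe, Finset.mem_sigma] at hp hp'
    have h1 := hlen c hp.1
    have h2 := hlen c' hp'.1
    have h3 := List.append_inj h (h1.trans h2.symm)
    obtain ⟨e1, e2⟩ := h3
    simp only at e1 e2
    subst e1; subst e2; rfl
  have hcard : F.card = ∑ c ∈ D, (P c).card := by
    rw [hFd, Finset.card_image_of_injOn hinj, Finset.card_sigma]
  have hFew := hF N F (by
    intro w hw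
    rw [hFd, Finset.mem_image] at hw
    obtain ⟨⟨c, z⟩, hp, rfl⟩ := hw
    rw [Finset.mem_sigma] at hp
    have h1 := hlen c hp.1
    have h2 := hp.2
    rw [hP] at h2
    simp only [Finset.mem_filter, decide_eq_true_eq] at h2
    have h3 := (hS.2.2.2.1 A z).mp h2.1
    refine ⟨?_, ?_⟩
    · simp only [List.length_append]
      omega
    · have h4 := h2.2
      unfold spoiled at h4
      rw [List.mem_filterMap] at h4
      obtain ⟨k, _, hk⟩ := h4
      exact ⟨k, hk⟩)
  have h5 : D.card * 2 ^ A ≤ 8 * F.card := by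
    rw [hcard, Finset.mul_sum, ← smul_eq_mul, ← Finset.sum_const]
    exact Finset.sum_le_sum (fun c hc' => (hc c hc').le)
  have h6 : 2 ^ N = 2 ^ M * 2 ^ A := by rw [← pow_add, hMA]
  have h7 : (128 * D.card) * 2 ^ A ≤ 2 ^ M * 2 ^ A := by
    rw [← h6]
    nlinarith
  have h8 : 128 * D.card ≤ 2 ^ M := Nat.le_of_mul_le_mul_right h7 (by positivity)
  omega

end Pool.Agent.H654R5.PT.DED
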