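import Pool.Agent.H654R5.PT.Stm

namespace Pool.Agent.H654R5.PT.DSP

open Pool.Agent.H654R5.PT

theorem strs_ne (X : Finset (List Bool)) (k : ℕ) (h : 2 ^ k ≤ X.card) :
    X.Nonempty := by
  rw [← Finset.card_pos]
  exact lt_of_lt_of_le (by positivity) h

open Classical in
theorem lift (hS : S_STR) (τ P : ℕ) (X : Finset (List Bool)) (m : List Bool → List (List Bool))
    (hm : ∀ x, ∀ z ∈ m x, z.length = τ)
    (hc : 2 ^ τ < 2 * (X.biUnion (fun x => (m x).toFinset)).card) :
    2 ^ (τ + P) < 2 * (X.biUnion (fun x =>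
      ((m x).flatMap (fun z => (allStr P).map (fun s => z ++ s))).toFinset)).card := by
  set B := X.biUnion (fun x => (m x).toFinset) with hB
  have hlen : ∀ z ∈ B, z.length = τ := by
    intro z hz
    rw [hB, Finset.mem_biUnion] at hz
    obtain ⟨x, _, hz⟩ := hz
    exact hm x z (List.mem_toFinset.mp hz)
  have e : X.biUnion (fun x =>
      ((m x).flatMap (fun z => (allStr P).map (fun s => z ++ s))).toFinset) =
      (B ×ˢ strs P).image (fun p => p.1 ++ p.2) := by
    ext w
    simp only [Finset.mem_biUnion, List.mem_toFinset, List.mem_flatMap, List.mem_map,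
      Finset.mem_image, Finset.mem_product, hB, Prod.exists, strs]
    constructor
    · rintro ⟨x, hx, z, hz, s, hs, rfl⟩
      exact ⟨z, s, ⟨⟨x, hx, hz⟩, hs⟩, rfl⟩
    · rintro ⟨z, s, ⟨⟨x, hx, hz⟩, hs⟩, rfl⟩
      exact ⟨x, hx, z, hz, s, hs, rfl⟩
  have hinj : Set.InjOn (fun p : List Bool × List Bool => p.1 ++ p.2)
      ((B ×ˢ strs P : Finset (List Bool × List Bool)) : Set (List Bool × List Bool)) := by
    rintro ⟨c, z⟩ hp ⟨c', z'⟩ hp' h
    rw [Finset.mem_coe, Finset.mem_product] at hp hp'
    have h1 := hlen c hp.1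
    have h2 := hlen c' hp'.1
    have h3 := List.append_inj h (h1.trans h2.symm)
    obtain ⟨e1, e2⟩ := h3
    simp only at e1 e2
    subst e1; subst e2; rfl
  rw [e, Finset.card_image_of_injOn hinj, Finset.card_product, hS.2.2.2.2 P, pow_add]
  have := Nat.mul_lt_mul_of_pos_right hc (show 0 < 2 ^ P by positivity)
  linarith

open Classical in
theorem DSP_proof (hS : S_STR) (hC : S_CMP) (hE : S_ES) (hN : S_NUM) : S_DSP := by
  intro g ν hg hν
  obtain ⟨-, -, hn1, -, -, hmax, -⟩ := hN g hg
  unfold addr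
  by_cases h1 : ν ≤ padN g
  · simp only [if_pos h1]
    refine ⟨fun x z hz => (hS.1 ν z).mp hz, fun X hX hc => ?_⟩
    obtain ⟨x0, hx0⟩ := strs_ne X _ hc
    have e : (X.biUnion fun _ => (allStr ν).toFinset) = strs ν := by
      ext w
      simp only [Finset.mem_biUnion, strs]
      exact ⟨fun ⟨_, _, h⟩ => h, fun h => ⟨x0, hx0, h⟩⟩
    rw [e, hS.2.2.2.2 ν]
    have : 0 < 2 ^ ν := by positivity
    omega
  · simp only [if_neg h1]
    push Not at h1
    set τ := ν - padN g with hτ
    have hτν : τ + padN g = ν := by omega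
    -- the main part
    have hmain : (∀ x, ∀ z ∈ mainPart g ν x, z.length = τ) ∧
        ∀ X ⊆ strs (2 ^ g), 2 ^ (ν - g - 4) ≤ X.card →
          2 ^ τ < 2 * (X.biUnion (fun x => (mainPart g ν x).toFinset)).card := by
      unfold mainPart
      by_cases h2 : ν ≤ nu1 g
      · simp only [if_pos h2, ← hτ]
        obtain ⟨hl, hb⟩ := hE g τ hg (by omega) (by omega)
        refine ⟨hl, fun X hX hc => ?_⟩
        have hk : kap g τ ≤ ν - g - 4 := by
          unfold kap
          unfold padN at hτ h1
          omega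
        have h3 := hb X hX ((Nat.pow_le_pow_right (by norm_num) hk).trans hc)
        have : 0 < 2 ^ τ := by positivity
        omega
      · simp only [if_neg h2]
        push Not at h2
        have h3 : ν ≤ 2 ^ (g + 1) := by
          rcases le_max_iff.mp hmax with h | h <;> omega
        exact hC g ν hg h2 h3
    refine ⟨?_, ?_⟩
    · intro x z hz
      simp only [List.mem_flatMap, List.mem_map] at hz
      obtain ⟨y, hy, s, hs, rfl⟩ := hz
      have h3 := hmain.1 x y hy
      have h4 := (hS.1 _ s).mp hs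
      rw [List.length_append]
      omega
    · intro X hX hc
      have h3 := lift hS τ (padN g) X (mainPart g ν) hmain.1 (hmain.2 X hX hc)
      rw [hτν] at h3
      exact h3

end Pool.Agent.H654R5.PT.DSP
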